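import Pool.Agent.D0H73.OP.Stm

/-! Project OP, module GRP: the infinite version of `UOC.exists_maps`. -/

set_option autoImplicit false

namespace Pool.Agent.D0H89.OP

open Pool.Agent.D0H73.OP Pool.Agent.V1192
open Pool.Agent.V1192.UOD (V)

/-- Infinite vector spaces over a finite field have independent coordinate maps onto countably many coordinate spaces. -/
theorem exists_coord' (K W : Type) [Field K] [Finite K] [AddCommGroup W] [Module K W] [Infinite W]
    (N : ℕ → ℕ) : ∃ f : (i : ℕ) → W → (Fin (N i) → K), (∀ i v w, f i (v + w) = f i v + f i w) ∧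
      ∃ t : (i : ℕ) → Fin (N i) → W, (∀ i j, f i (t i j) = Pi.single j 1) ∧
        ∀ i i' j, i' ≠ i → f i' (t i j) = 0 := by
  classical
  have hinf2 : Infinite (Module.Basis.ofVectorSpaceIndex K W) := by
    by_contra hcon
    rw [not_infinite_iff_finite] at hcon
    have h1 : Finite W := by
      have := Fintype.ofFinite (Module.Basis.ofVectorSpaceIndex K W)
      exact Finite.of_equiv _ (Module.Basis.ofVectorSpace K W).equivFun.toEquiv.symm
    exact not_finite W
  obtain ⟨e⟩ : Nonempty ((Σ i : ℕ, Fin (N i)) ↪ Module.Basis.ofVectorSpaceIndex K W) :=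
    ⟨(Encodable.encode' (Σ i : ℕ, Fin (N i))).trans (Infinite.natEmbedding _)⟩
  refine ⟨fun i w j => (Module.Basis.ofVectorSpace K W).coord (e ⟨i, j⟩) w, fun i v w => ?_,
    fun i j => Module.Basis.ofVectorSpace K W (e ⟨i, j⟩), fun i j => ?_, fun i i' j hne => ?_⟩
  · ext j
    exact map_add ((Module.Basis.ofVectorSpace K W).coord (e ⟨i, j⟩)) v w
  · ext j'
    simp only
    rw [Module.Basis.coord_apply, Module.Basis.repr_self]
    by_cases hij : j' = j
    · subst hij
      rw [Finsupp.single_eq_same, Pi.single_eq_same]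
    · rw [Pi.single_eq_of_ne hij, Finsupp.single_eq_of_ne]
      intro h
      have h2 := e.injective h
      apply hij
      simpa using h2
  · ext j'
    simp only
    rw [Module.Basis.coord_apply, Module.Basis.repr_self, Pi.zero_apply, Finsupp.single_eq_of_ne]
    intro h
    have h2 := e.injective h
    exact hne (congrArg Sigma.fst h2)

theorem t_GRP : S_GRP := by
  intro G _ _ n hn hG
  classical
  have hex : ∃ d : ℕ, 0 < d ∧ ((powMonoidHom d : G →* G).range : Set G).Finite := by
    refine ⟨n, hn, (Set.finite_singleton (1 : G)).subset ?_⟩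
    rintro _ ⟨g, rfl⟩
    exact hG g
  obtain ⟨hd0, hdfin⟩ := Nat.find_spec hex
  set d := Nat.find hex with hd
  have hmin : ∀ m, 0 < m → m < d → ¬ ((powMonoidHom m : G →* G).range : Set G).Finite :=
    fun m hm0 hm h => Nat.find_min hex hm ⟨hm0, h⟩
  have hd1 : d ≠ 1 := by
    intro h
    have : ((powMonoidHom d : G →* G).range : Set G) = Set.univ := by
      ext g
      simp only [SetLike.mem_coe, MonoidHom.mem_range, powMonoidHom_apply, Set.mem_univ, iff_true]
      exact ⟨g, by rw [h, pow_one]⟩
    rw [this] at hdfin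
    exact Set.infinite_univ hdfin
  set p := d.minFac with hp
  have hpp : p.Prime := Nat.minFac_prime hd1
  obtain ⟨k, hk⟩ : ∃ k, d = p * k := Nat.minFac_dvd d
  have hk0 : 0 < k := by
    rcases Nat.eq_zero_or_pos k with h | h
    · rw [h, mul_zero] at hk; omega
    · exact h
  have hkd : k < d := by
    rw [hk]
    exact lt_mul_of_one_lt_left hk0 hpp.one_lt
  have hkinf := hmin k hk0 hkd
  set K : Subgroup G := (powMonoidHom d : G →* G).range.comap (powMonoidHom k) with hK
  have hfact : Fact p.Prime := ⟨hpp⟩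
  refine ⟨p, hpp, fun N => ?_⟩
  -- the quotient is infinite
  have hinf : Infinite (G ⧸ K) := by
    by_contra hcon
    rw [not_infinite_iff_finite] at hcon
    apply hkinf
    have hf2 : Finite ((powMonoidHom d : G →* G).range : Set G) := hdfin
    have : ((powMonoidHom k : G →* G).range : Set G) ⊆
        Set.range (fun q : (G ⧸ K) × ((powMonoidHom d : G →* G).range : Set G) =>
          (q.1.out) ^ k * (q.2 : G)) := by
      rintro _ ⟨g, rfl⟩
      have h1 : ((QuotientGroup.mk g : G ⧸ K).out)⁻¹ * g ∈ K := by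
        rw [← QuotientGroup.eq]
        exact Quotient.out_eq' (QuotientGroup.mk g : G ⧸ K)
      refine ⟨(QuotientGroup.mk g, ⟨_, h1⟩), ?_⟩
      simp only [powMonoidHom_apply]
      rw [mul_pow, inv_pow, mul_inv_cancel_left]
    exact (Set.finite_range _).subset this
  have htor : ∀ w : Additive (G ⧸ K), p • w = 0 := by
    intro w
    obtain ⟨g, hg⟩ := QuotientGroup.mk_surjective (Additive.toMul w)
    apply Additive.toMul.injective
    rw [toMul_nsmul, ← hg, ← QuotientGroup.mk_pow, toMul_zero]
    rw [QuotientGroup.eq_one_iff, hK, Subgroup.mem_comap, MonoidHom.mem_range]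
    exact ⟨g, by rw [powMonoidHom_apply, powMonoidHom_apply, ← pow_mul, hk]⟩
  let _ : Module (ZMod p) (Additive (G ⧸ K)) := AddCommGroup.zmodModule htor
  have : NeZero p := ⟨hpp.ne_zero⟩
  have hinf3 : Infinite (Additive (G ⧸ K)) := hinf
  obtain ⟨f, hf, t, ht, ht0⟩ := exists_coord' (ZMod p) (Additive (G ⧸ K)) N
  have ht2 : ∀ i j, ∃ g : G, Additive.ofMul (QuotientGroup.mk g : G ⧸ K) = t i j := fun i j => by
    obtain ⟨g, hg⟩ := QuotientGroup.mk_surjective (Additive.toMul (t i j))
    exact ⟨g, by rw [hg]; rfl⟩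
  choose s hs using ht2
  refine ⟨fun i g => f i (Additive.ofMul (QuotientGroup.mk g : G ⧸ K)), ?_, s, ?_, ?_⟩
  · intro i g h
    simp only
    rw [QuotientGroup.mk_mul, ofMul_mul, hf]
  · intro i j
    simp only
    rw [hs, ht]
  · intro i i' j hne
    simp only
    rw [hs, ht0 i i' j hne]

end Pool.Agent.D0H89.OP
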